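import Pool.Agent.Helper91.FE.Pure
import Pool.Agent.Helper91.FD.Twist

/-!
Twisted tensors give pure tensors.
-/

set_option autoImplicit false
set_option linter.unusedSectionVars false

namespace Pool.Agent.Helper91.FE

open Module FF Pool.Agent.W602.GT Pool.Agent.W603.LV Pool.Agent.TH143.GT Pool.Agent.Y220.OG
  Pool.Agent.Helper12.BL Pool.Agent.Helper91.HM Pool.Agent.Helper91.HM.Tw

open Pool.Agent.Helper91.FD (VReg VLog VInv dl IsFr dl_le dl_nonneg vlog_sum span_top exists_adp
  detM detM_lt detM_change mulM mulM_apply card_split reg_of_gr gr_of_reg adj_reg li_of_fr)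

variable {K : Type} [Field K] [Algebra ℂ K] {V : Type} [AddCommGroup V] [Module K V] {n r : ℕ}
  {ι : V →ₗ[K] Derivation ℂ K K}

/-- one twist less -/
theorem ten_tw [Algebra.EssFiniteType ℂ K] (hn : Algebra.trdeg ℂ K = n)
    (hι : Function.Injective ι) [FiniteDimensional K V] (hr : finrank K V = r)
    {X : Set (Place ℂ K)} {δ γ : Place ℂ K → ℝ} (hδ : ∀ P ∈ X, 0 ≤ δ P) (hδ1 : ∀ P ∈ X, δ P ≤ 1)
    {B0 : Fin r → V} (hB0 : LinearIndependent K B0) {N : ℕ} {a b : ℤ}
    {s : (Fin r → V) → MultilinearMap K (fun _ : Fin N => V) K}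
    (hs : IsTen n X δ γ ι (a + 1) b s) :
    IsTen n X δ γ ι a b (fun B => mulM (s B) (detM hr B)) := by
  classical
  refine ⟨fun A B hB hA => ?_, fun P hP hdiv B hB D hD => ?_⟩
  · ext v
    rw [smul_apply, mulM_apply, mulM_apply, hs.1 A B hB hA, detM_change hr hB hA,
      smul_apply, smul_eq_mul, smul_eq_mul, zpow_add₀ hA, zpow_one]
    field_simp
  · have hli := li_of_fr hn hι hr hdiv hB0 hB
    have h1 := hs.2 P hP hdiv B hB (fun j => D (Fin.castAdd r j)) fun j => hD _
    set x := s B (fun j => D (Fin.castAdd r j)) with hx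
    set y : Fin r → V := fun i => D (Fin.natAdd N i) with hy
    have hyr : ∀ i, VReg ι P (y i) := fun i => hD _
    choose c hc hcy using fun i => hB.2 (y i) (hyr i)
    obtain ⟨Y, hY⟩ : ∃ Y : Matrix (Fin r) (Fin r) K, Y = Matrix.of c := ⟨_, rfl⟩
    have hYr : ∀ i j, P.Reg (Y i j) := fun i j => by
      rw [hY]
      exact hc i j
    have hyY : y = lt Y B := by
      funext i
      rw [hcy i, hY]
      rfl
    rw [mulM_apply, ← hx, ← hy, hyY, detM_lt hr hli, card_split]
    have hdet : Gr P 0 Y.det := det_reg hYr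
    have hd0 : 0 ≤ dl δ ι P := dl_nonneg (hδ P hP)
    set c1 : ℕ := Nat.card {j : Fin N // ¬ VLog ι P (D (Fin.castAdd r j))} with hc1
    set c2 : ℕ := Nat.card {i : Fin r // ¬ VLog ι P (D (Fin.natAdd N i))} with hc2
    by_cases hlog : ∀ i, VLog ι P (y i)
    · -- all entries are logarithmic
      have h2 : Gr P (dl δ ι P) Y.det := by
        by_cases hinv : VInv ι P
        · rw [dl, if_pos hinv]
          exact hdet
        · rw [dl, if_neg hinv]
          by_cases h0 : Y.det = 0
          · exact Or.inl h0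
          have h3 : 0 ≤ P.ord Y.det := (reg_of_gr hdet).resolve_left h0
          rcases h3.lt_or_eq with h4 | h4
          · right
            have h5 : (1 : ℤ) ≤ P.ord Y.det := h4
            have h6 : (1 : ℝ) ≤ (P.ord Y.det : ℝ) := by exact_mod_cast h5
            exact (hδ1 P hP).trans h6
          · exfalso
            apply hinv
            have hunit : IsUnit Y.det := isUnit_iff_ne_zero.2 h0
            have hBy : B = lt Y⁻¹ y := by
              rw [hyY, lt_lt, Matrix.nonsing_inv_mul _ hunit, lt_one]
            have hBlog : ∀ i, VLog ι P (B i) := by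
              intro i
              rw [hBy]
              refine vlog_sum (fun j => ?_) hlog
              rw [Matrix.inv_def, Matrix.smul_apply, smul_eq_mul]
              refine reg_of_gr ?_
              have h5 : Gr P 0 (Ring.inverse Y.det) := by
                rw [Ring.inverse_eq_inv']
                right
                rw [P.ord_inv, ← h4]
                norm_num
              have h6 := h5.mul (gr_of_reg (adj_reg hYr i j))
              rwa [add_zero] at h6
            intro v hv
            obtain ⟨c', hc', hcv⟩ := hB.2 v hv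
            rw [hcv]
            exact vlog_sum hc' hBlog
      refine Gr.mono ?_ (h1.mul h2)
      have hc20 : (0 : ℝ) ≤ c2 := Nat.cast_nonneg _
      push_cast
      nlinarith
    · -- some entry is not logarithmic
      push Not at hlog
      obtain ⟨i, hi⟩ := hlog
      have h2 : 1 ≤ c2 := by
        rw [hc2]
        have : Nonempty {i : Fin r // ¬ VLog ι P (D (Fin.natAdd N i))} := ⟨⟨i, hi⟩⟩
        exact Nat.card_pos
      have h3 : (1 : ℝ) ≤ c2 := by exact_mod_cast h2
      refine Gr.mono ?_ (h1.mul hdet)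
      push_cast
      nlinarith

/-- If there are no pure tensors then there are no tensors with values in `a (K + Δ) + b D`, `a ≥ 0`,
for coefficients in `[0, 1]`. -/
theorem noTwisted [Algebra.EssFiniteType ℂ K] (hn : Algebra.trdeg ℂ K = n)
    (hι : Function.Injective ι) [FiniteDimensional K V] (hr : finrank K V = r) (hr0 : 0 < r)
    {X : Set (Place ℂ K)} {δ γ : Place ℂ K → ℝ} (hδ : ∀ P ∈ X, 0 ≤ δ P) (hδ1 : ∀ P ∈ X, δ P ≤ 1)
    {ρ : ℤ} {κ : ℕ} (h : NoPure n X δ γ ρ ι κ) {N a : ℕ} {b : ℤ} (hNa : 0 < N + a)
    (hNb : 0 < (N : ℤ) + r * a + ρ * b)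
    {s : (Fin r → V) → MultilinearMap K (fun _ : Fin N => V) K}
    (hs : IsMov n X δ γ ι κ (a : ℤ) b s) {B : Fin r → V} (hB : LinearIndependent K B) : s B = 0 := by
  classical
  induction a generalizing N with
  | zero =>
    have key : ∀ s' : (Fin r → V) → MultilinearMap K (fun _ : Fin N => V) K,
        IsTen n X δ γ ι ((0 : ℕ) : ℤ) b s' → IsPure n X δ γ ι b (s' B) := by
      intro s' hs' P hP hdiv D hD
      obtain ⟨E, hE, hEf, -⟩ := exists_adp hn hι hr hB (fun _ => 0) hdiv
      obtain ⟨A, hA⟩ := exists_lt (D := E) (span_top hr hB)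
      have hA0 : A.det ≠ 0 := by
        have h1 := hE.1
        rw [hA] at h1
        exact (lt_li.1 h1).2
      have h2 := hs'.1 A B hB hA0
      rw [← hA, Nat.cast_zero, zpow_zero, one_smul] at h2
      have h3 := hs'.2 P hP hdiv E hEf D hD
      rw [h2] at h3
      refine Gr.mono (le_of_eq ?_) h3
      simp
    obtain ⟨h1, f, hf, h2⟩ := hs
    exact h N b (by omega) (by simpa using hNb) (s B) ⟨key s h1, f, hf, fun j => key _ (h2 j)⟩
  | succ a ih =>
    obtain ⟨h1, f, hf, h2⟩ := hs
    rw [Nat.cast_succ] at h1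
    have h3 : IsMov n X δ γ ι κ (a : ℤ) b (fun B => mulM (s B) (detM hr B)) := by
      refine ⟨ten_tw hn hι hr hδ hδ1 hB h1, f, hf, fun j => ?_⟩
      have h4 := h2 j
      rw [Nat.cast_succ] at h4
      have h5 := ten_tw hn hι hr hδ hδ1 hB h4
      have h6 : (fun B => f j • mulM (s B) (detM hr B)) =
          fun B => mulM (f j • s B) (detM hr B) := by
        funext B'
        ext v
        rw [smul_apply, mulM_apply, mulM_apply, smul_apply,
          smul_eq_mul, smul_eq_mul, mul_assoc]
      rw [h6]
      exact h5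
    have h4 := ih (N := N + r) (by omega) (by
      push_cast at hNb ⊢
      linarith) h3
    ext x
    have h5 : mulM (s B) (detM hr B) (Fin.append x B) = 0 := by
      rw [h4]
      rfl
    rw [mulM_apply] at h5
    have h6 : (fun j => Fin.append x B (Fin.castAdd r j)) = x := by
      funext j
      exact Fin.append_left _ _ _
    have h7 : (fun i => Fin.append x B (Fin.natAdd N i)) = lt (1 : Matrix (Fin r) (Fin r) K) B := by
      funext i
      rw [lt_one]
      exact Fin.append_right _ _ _
    rw [h6, h7, detM_lt hr hB, Matrix.det_one, mul_one] at h5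
    rw [h5]
    rfl

end Pool.Agent.Helper91.FE
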