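import Pool.Agent.Helper91.FE.Ind
import Pool.Agent.Helper91.FE.FolDef

/-!
The main theorem in terms of the definitions of `FolDef`.
-/

set_option autoImplicit false
set_option linter.unusedSectionVars false

namespace Pool.Agent.Helper91.FE

open Module FF Pool.Agent.W602.GT Pool.Agent.W603.LV Pool.Agent.TH143.GT Pool.Agent.Y220.OG
  Pool.Agent.Helper12.BL Pool.Agent.Helper91.HM Pool.Agent.Helper91.HM.Tw

open Pool.Agent.Helper91.FD (VReg VLog VInv dl IsFr dl_le dl_nonneg vlog_sum span_top exists_adp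
  InvU exists_T finDim brk clo le_clo clo_le clo_inv brk_le invU_clo)

variable {K : Type} [Field K] [Algebra ℂ K] {n : ℕ}

theorem lt_inj {V : Type} [AddCommGroup V] [Module K V] {r : ℕ} {E : Fin r → V}
    (hE : LinearIndependent K E) {M M' : Matrix (Fin r) (Fin r) K} (h : lt M E = lt M' E) :
    M = M' := by
  ext i j
  have h1 := congrFun h i
  have h2 : ∑ j, (M i j - M' i j) • E j = 0 := by
    simp only [sub_smul, Finset.sum_sub_distrib]
    exact sub_eq_zero.2 h1
  exact sub_eq_zero.1 (Fintype.linearIndependent_iff.1 hE _ h2 j)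

theorem frame_reg {P : Place ℂ K} {E E' : Fin n → Derivation ℂ K K} (hE : LinearIndependent K E)
    (hf : IsFrame P E) (hf' : ∀ i, DerReg P (E' i)) {M : Matrix (Fin n) (Fin n) K}
    (h : E' = lt M E) : ∀ i j, P.Reg (M i j) := by
  choose c hc hcE using fun i => hf.2 (E' i) (hf' i)
  have h1 : M = Matrix.of c := by
    refine lt_inj hE ?_
    rw [← h]
    funext i
    exact hcE i
  intro i j
  rw [h1]
  exact hc i j

theorem frame_unit {P : Place ℂ K} {E E' : Fin n → Derivation ℂ K K} (hE : LinearIndependent K E)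
    (hE' : LinearIndependent K E') (hf : IsFrame P E) (hf' : IsFrame P E')
    {M M' : Matrix (Fin n) (Fin n) K} (h : E' = lt M E) (h' : E = lt M' E') :
    P.ord M.det = 0 := by
  have h1 := det_reg (frame_reg hE hf hf'.1 h)
  have h2 := det_reg (frame_reg hE' hf' hf.1 h')
  have h3 : M' * M = 1 := by
    refine lt_inj hE ?_
    rw [← lt_lt, ← h, ← h', lt_one]
  have h4 : M'.det * M.det = 1 := by rw [← Matrix.det_mul, h3, Matrix.det_one]
  have h5 : M'.det ≠ 0 := left_ne_zero_of_mul (h4 ▸ one_ne_zero)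
  have h6 : M.det ≠ 0 := right_ne_zero_of_mul (h4 ▸ one_ne_zero)
  have h7 : P.ord M'.det + P.ord M.det = 0 := by
    rw [← P.ord_mul h5 h6, h4, P.ord_one]
  have h8 : (0 : ℝ) ≤ P.ord M.det := h1.resolve_left h6
  have h9 : (0 : ℝ) ≤ P.ord M'.det := h2.resolve_left h5
  have h10 : 0 ≤ P.ord M.det := by exact_mod_cast h8
  have h11 : 0 ≤ P.ord M'.det := by exact_mod_cast h9
  omega

/-- the divisor which is given by a basis of the rational vector fields -/
theorem exists_gamma [Algebra.EssFiniteType ℂ K] (hn : Algebra.trdeg ℂ K = n)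
    {C0 : Fin n → Derivation ℂ K K} (hC0 : LinearIndependent K C0) (δ : Place ℂ K → ℝ) :
    ∃ γ : Place ℂ K → ℝ, ∀ P, Divisorial n P → ∀ E, LinearIndependent K E → IsFrame P E →
      ∀ M, C0 = lt M E → γ P = δ P - P.ord M.det := by
  have h1 : ∀ P : Place ℂ K, ∃ x : ℝ, Divisorial n P → ∀ E, LinearIndependent K E →
      IsFrame P E → ∀ M, C0 = lt M E → x = δ P - P.ord M.det := by
    intro P
    by_cases hP : Divisorial n P
    · obtain ⟨E0, hE0, hf0⟩ := exists_frame hn hP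
      obtain ⟨M0, hM0⟩ := exists_lt (D := C0) (li_span hn hE0)
      refine ⟨δ P - P.ord M0.det, fun _ E hE hf M hM => ?_⟩
      obtain ⟨L, hL⟩ := exists_lt (D := E) (li_span hn hE0)
      obtain ⟨L', hL'⟩ := exists_lt (D := E0) (li_span hn hE)
      have h2 : M0 = M * L := by
        refine lt_inj hE0 ?_
        rw [← lt_lt, ← hL, ← hM, ← hM0]
      have h3 := frame_unit hE0 hE hf0 hf hL hL'
      have h4 : M.det ≠ 0 := by
        have h5 := hC0
        rw [hM] at h5
        exact (lt_li.1 h5).2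
      have h5 : L.det ≠ 0 := by
        have h6 := hE
        rw [hL] at h6
        exact (lt_li.1 h6).2
      rw [h2, Matrix.det_mul, P.ord_mul h4 h5, h3, add_zero]
    · exact ⟨0, fun h => absurd h hP⟩
  choose γ hγ using h1
  exact ⟨γ, hγ⟩

theorem linInv [Algebra.EssFiniteType ℂ K] (hn : Algebra.trdeg ℂ K = n)
    {C0 : Fin n → Derivation ℂ K K} (hC0 : LinearIndependent K C0) {X : Set (Place ℂ K)}
    {δ γ : Place ℂ K → ℝ} (hγ : ∀ P, Divisorial n P → ∀ E, LinearIndependent K E → IsFrame P E →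
      ∀ M, C0 = lt M E → γ P = δ P - P.ord M.det) : LinInv n X δ γ := by
  rintro φ τ h ⟨-, hX⟩
  obtain ⟨A, hA⟩ := exists_lt (D := fun i => cj h (C0 i)) (li_span hn hC0)
  have hA0 : A.det ≠ 0 := by
    have h1 := cj_li h hC0
    rw [hA] at h1
    exact (lt_li.1 h1).2
  refine ⟨φ.symm A.det, (map_ne_zero φ.symm).2 hA0, fun P hP hdiv => ?_⟩
  obtain ⟨E, hE, hf⟩ := exists_frame hn hdiv
  obtain ⟨M, hM⟩ := exists_lt (D := C0) (li_span hn hE)
  have hM0 : M.det ≠ 0 := by
    have h1 := hC0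
    rw [hM] at h1
    exact (lt_li.1 h1).2
  have h1 : (fun i => cj h (C0 i)) = lt (M.map φ) (fun j => cj h (E j)) := by
    funext i
    rw [hM]
    exact cj_sum h _ _
  have h2 : C0 = lt (A⁻¹ * M.map φ) (fun j => cj h (E j)) := by
    rw [← lt_lt, ← h1, hA, lt_lt, Matrix.nonsing_inv_mul _ (isUnit_iff_ne_zero.2 hA0), lt_one]
  obtain ⟨-, h3⟩ := hX P hP (mapPlace h P) fun f => by
    rw [mapPlace_ord, RingEquiv.symm_apply_apply]
  have hdet : (M.map φ).det = φ M.det := (RingHom.map_det (φ : K →+* K) M).symm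
  rw [hγ P hdiv E hE hf M hM, hγ _ (divisorial_map h hdiv) _ (cj_li h hE) (isFrame_map h hf) _ h2,
    h3, Matrix.det_mul, Matrix.det_nonsing_inv, Ring.inverse_eq_inv', hdet, mapPlace_ord, map_mul,
    map_inv₀, RingEquiv.symm_apply_apply, P.ord_mul
      (inv_ne_zero ((map_ne_zero φ.symm).2 hA0)) hM0, P.ord_inv]
  push_cast
  ring

theorem kodairaGe_of [Algebra.EssFiniteType ℂ K] (hn : Algebra.trdeg ℂ K = n)
    {C0 : Fin n → Derivation ℂ K K} (hC0 : LinearIndependent K C0) {X : Set (Place ℂ K)}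
    {δ γ : Place ℂ K → ℝ} (hδ : ∀ P ∈ X, 0 ≤ δ P)
    (hγ : ∀ P, Divisorial n P → ∀ E, LinearIndependent K E → IsFrame P E →
      ∀ M, C0 = lt M E → γ P = δ P - P.ord M.det) {κ : ℕ}
    (h : KodGe n n X δ γ n (⊤ : Submodule K (Derivation ℂ K K)).subtype κ) :
    Tw.KodairaGe n X δ κ := by
  obtain ⟨m, b, hm, hmb, ω, hω, D, hD, halg⟩ := h
  obtain ⟨w, hw⟩ : ∃ w : ℕ, (w : ℤ) = m + b := by
    refine ⟨(m + b).toNat, Int.toNat_of_nonneg ?_⟩
    have h1 : (0 : ℤ) < n * (m + b) := by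
      rw [mul_add]
      exact hmb
    exact (pos_of_mul_pos_right h1 (Int.natCast_nonneg n)).le
  have hw0 : 0 < w := by
    have h1 : (0 : ℤ) < n * (m + b) := by
      rw [mul_add]
      exact hmb
    rw [← hw] at h1
    have h2 := pos_of_mul_pos_right h1 (Int.natCast_nonneg n)
    exact_mod_cast h2
  choose R hR using fun B : Fin n → Derivation ℂ K K => exists_lt (D := B) (li_span hn hC0)
  have hRlt : ∀ (A : Matrix (Fin n) (Fin n) K) (B : Fin n → Derivation ℂ K K),
      R (lt A B) = A * R B := by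
    intro A B
    refine lt_inj hC0 ?_
    rw [← lt_lt, ← hR, ← hR]
  let up : (Fin n → Derivation ℂ K K) → Fin n → (⊤ : Submodule K (Derivation ℂ K K)) :=
    fun B i => ⟨B i, Submodule.mem_top⟩
  have hup : ∀ (A : Matrix (Fin n) (Fin n) K) (B : Fin n → Derivation ℂ K K),
      up (lt A B) = lt A (up B) := by
    intro A B
    funext i
    apply Subtype.ext
    change ∑ l, A i l • B l = (⊤ : Submodule K (Derivation ℂ K K)).subtype
      (∑ l, A i l • up B l)
    rw [map_sum]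
    rfl
  have hval : ∀ j B, ω j (up B) = (R B).det ^ m * ω j (up C0) := by
    intro j B
    have h1 := (hω j).1 (R B) (up C0)
    rw [← hup, ← hR] at h1
    exact h1
  refine ⟨w, hw0, fun j B => (R B).det ^ w * ω j (up C0), fun j => ⟨fun A B => ?_,
    fun P hP hdiv B hB => ?_⟩, fun i => (D i).1, ?_, ?_⟩
  · change (R (lt A B)).det ^ w * ω j (up C0) = A.det ^ w * ((R B).det ^ w * ω j (up C0))
    rw [hRlt, Matrix.det_mul, mul_pow, mul_assoc]
  · change Gr P (-(w * δ P)) ((R B).det ^ w * ω j (up C0))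
    obtain ⟨E, hE, hf⟩ := exists_frame hn hdiv
    obtain ⟨M, hM⟩ := exists_lt (D := C0) (li_span hn hE)
    obtain ⟨Y, hY⟩ := exists_lt (D := B) (li_span hn hE)
    have hYr := det_reg (frame_reg hE hf hB hY)
    have hM0 : M.det ≠ 0 := by
      have h1 := hC0
      rw [hM] at h1
      exact (lt_li.1 h1).2
    have h1 : M * R E = 1 := by
      refine lt_inj hC0 ?_
      rw [← lt_lt, ← hR, ← hM, lt_one]
    have h2 : M.det * (R E).det = 1 := by rw [← Matrix.det_mul, h1, Matrix.det_one]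
    have h3 : (R E).det ≠ 0 := right_ne_zero_of_mul (h2 ▸ one_ne_zero)
    have h4 : P.ord (R E).det = -P.ord M.det := by
      have h5 : P.ord M.det + P.ord (R E).det = 0 := by
        rw [← P.ord_mul hM0 h3, h2, P.ord_one]
      linarith
    have h5 : (R B).det ^ w * ω j (up C0) = Y.det ^ w * ((R E).det ^ b * ω j (up E)) := by
      rw [hY, hRlt, Matrix.det_mul, mul_pow, hval j E, ← zpow_natCast (R E).det w,
        ← zpow_natCast (R E).det m, hw, zpow_add₀ h3]
      ring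
    rw [h5]
    have h6 : Gr P (b * P.ord (R E).det) ((R E).det ^ b) := by
      right
      rw [P.ord_zpow]
      push_cast
      exact le_rfl
    have h7 := (hω j).2 P hP hdiv (up E) fun i => hf.1 i
    refine Gr.mono ?_ ((Gr.pow hYr w).mul (h6.mul h7))
    rw [h4, hγ P hdiv E hE hf M hM]
    have h8 : (w : ℝ) = m + b := by exact_mod_cast hw
    have h9 : (m : ℝ) * dl δ (⊤ : Submodule K (Derivation ℂ K K)).subtype P ≤ m * δ P :=
      mul_le_mul_of_nonneg_left (dl_le (hδ P hP)) (Nat.cast_nonneg _)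
    rw [h8]
    push_cast
    linarith
  · change (R fun i => (D i).1).det ^ w * ω 0 (up C0) ≠ 0
    have h1 : ω 0 D = (R fun i => (D i).1).det ^ m * ω 0 (up C0) := hval 0 fun i => (D i).1
    rw [h1] at hD
    have h2 : (R fun i => (D i).1).det ≠ 0 := by
      intro h0
      rw [h0, zero_pow hm.ne', zero_mul] at hD
      exact hD rfl
    exact mul_ne_zero (pow_ne_zero _ h2) (right_ne_zero_of_mul hD)
  · have h1 : ∀ j, ω j D = (R fun i => (D i).1).det ^ m * ω j (up C0) :=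
      fun j => hval j fun i => (D i).1
    have hD' := hD
    rw [h1] at hD'
    have h2 : (R fun i => (D i).1).det ≠ 0 := by
      intro h0
      rw [h0, zero_pow hm.ne', zero_mul] at hD'
      exact hD' rfl
    have h3 : (fun i : Fin κ => (R fun i => (D i).1).det ^ w * ω i.succ (up C0) /
        ((R fun i => (D i).1).det ^ w * ω 0 (up C0))) = fun i : Fin κ => ω i.succ D / ω 0 D := by
      funext i
      rw [h1, h1, mul_div_mul_left _ _ (pow_ne_zero _ h2), mul_div_mul_left _ _ (pow_ne_zero _ h2)]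
    change AlgebraicIndependent ℂ (fun i : Fin κ => (R fun i => (D i).1).det ^ w *
      ω i.succ (up C0) / ((R fun i => (D i).1).det ^ w * ω 0 (up C0)))
    rw [h3]
    exact halg

theorem dl_eq (δ : Place ℂ K → ℝ) (U : Submodule K (Derivation ℂ K K)) (P : Place ℂ K) :
    dl δ U.subtype P = Fol2.coeffOn δ U P := by
  have h1 : VInv U.subtype P ↔ Fol2.DivInvariant U P :=
    ⟨fun h D hD hr => h ⟨D, hD⟩ hr, fun h v hv => h v v.2 hv⟩
  by_cases hP : VInv U.subtype P
  · rw [dl, Fol2.coeffOn, if_pos hP, if_pos (h1.1 hP)]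
  · rw [dl, Fol2.coeffOn, if_neg hP, if_neg fun h' => hP (h1.2 h')]

/-- the restriction of a family of multilinear maps -/
noncomputable def restr (U : Submodule K (Derivation ℂ K K)) {r N : ℕ} (C0 : Fin n →
    Derivation ℂ K K) (s : (Fin r → Derivation ℂ K K) → (Fin n → Derivation ℂ K K) →
      MultilinearMap K (fun _ : Fin N => Derivation ℂ K K) K) :
    (Fin r → U) → MultilinearMap K (fun _ : Fin N => U) K :=
  fun B => (s (fun i => (B i : Derivation ℂ K K)) C0).compLinearMap fun _ => U.subtype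

theorem restr_apply (U : Submodule K (Derivation ℂ K K)) {r N : ℕ} (C0 : Fin n →
    Derivation ℂ K K) (s : (Fin r → Derivation ℂ K K) → (Fin n → Derivation ℂ K K) →
      MultilinearMap K (fun _ : Fin N => Derivation ℂ K K) K)
    (B : Fin r → U) (D : Fin N → U) : restr U C0 s B D =
      s (fun i => (B i : Derivation ℂ K K)) C0 (fun j => (D j : Derivation ℂ K K)) := rfl

theorem li_coe {U : Submodule K (Derivation ℂ K K)} {r : ℕ} {B : Fin r → U}
    (hB : LinearIndependent K B) : LinearIndependent K (fun i => (B i : Derivation ℂ K K)) :=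
  hB.map' U.subtype (LinearMap.ker_eq_bot.2 (Submodule.subtype_injective U))

/-- tensors with an explicit rank -/
def TenR (n : ℕ) (X : Set (Place ℂ K)) (δ : Place ℂ K → ℝ) (U : Submodule K (Derivation ℂ K K))
    {r N : ℕ} (a b : ℤ) (s : (Fin r → Derivation ℂ K K) → (Fin n → Derivation ℂ K K) →
      MultilinearMap K (fun _ : Fin N => Derivation ℂ K K) K) : Prop :=
  (∀ (A : Matrix (Fin r) (Fin r) K) (A' : Matrix (Fin n) (Fin n) K)
    (B : Fin r → Derivation ℂ K K) (C : Fin n → Derivation ℂ K K), Fol2.BasisIn U B →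
      LinearIndependent K C → A.det ≠ 0 → A'.det ≠ 0 → ∀ D : Fin N → Derivation ℂ K K,
        (∀ j, D j ∈ U) → s (lt A B) (lt A' C) D = A.det ^ a * A'.det ^ b * s B C D) ∧
  ∀ P ∈ X, Divisorial n P → ∀ (B : Fin r → Derivation ℂ K K) (C : Fin n → Derivation ℂ K K),
    Fol2.FrameOn U P B → IsFrame P C → ∀ D : Fin N → Derivation ℂ K K,
      (∀ j, D j ∈ U ∧ DerReg P (D j)) →
        Gr P (-(((Nat.card {j : Fin N // ¬ DerLog P (D j)} : ℝ) + a) * Fol2.coeffOn δ U P +
          b * δ P)) (s B C D)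

theorem isTen_of [Algebra.EssFiniteType ℂ K] (hn : Algebra.trdeg ℂ K = n)
    {C0 : Fin n → Derivation ℂ K K} (hC0 : LinearIndependent K C0) {X : Set (Place ℂ K)}
    {δ γ : Place ℂ K → ℝ} (hγ : ∀ P, Divisorial n P → ∀ E, LinearIndependent K E → IsFrame P E →
      ∀ M, C0 = lt M E → γ P = δ P - P.ord M.det) {U : Submodule K (Derivation ℂ K K)}
    {r N : ℕ} {a b : ℤ} {s : (Fin r → Derivation ℂ K K) → (Fin n → Derivation ℂ K K) →
      MultilinearMap K (fun _ : Fin N => Derivation ℂ K K) K} (h : TenR n X δ U a b s)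
    (hr : finrank K U = r) :
    IsTen n X δ γ U.subtype a b (restr U C0 s) := by
  have hfin := (finDim hn).1
  refine ⟨fun A B hB hA => ?_, fun P hP hdiv B hB D hD => ?_⟩
  · ext D
    rw [smul_apply, restr_apply, restr_apply, smul_eq_mul]
    have h1 := h.1 A 1 _ C0 ⟨li_coe hB, fun i => (B i).2⟩ hC0 hA (by
      rw [Matrix.det_one]
      exact one_ne_zero) _ fun j => (D j).2
    rw [lt_one, Matrix.det_one, one_zpow, mul_one] at h1
    have h3 : (fun i => ((lt A B i : U) : Derivation ℂ K K)) =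
        lt A (fun i => (B i : Derivation ℂ K K)) := by
      funext i
      change U.subtype (∑ j, A i j • B j) = _
      rw [map_sum]
      rfl
    rw [h3]
    exact h1
  · obtain ⟨E, hE, hf⟩ := exists_frame hn hdiv
    obtain ⟨M, hM⟩ := exists_lt (D := C0) (li_span hn hE)
    have hM0 : M.det ≠ 0 := by
      have h1 := hC0
      rw [hM] at h1
      exact (lt_li.1 h1).2
    have hBf : Fol2.FrameOn U P (fun i => (B i : Derivation ℂ K K)) := by
      refine ⟨fun i => ⟨(B i).2, hB.1 i⟩, fun G hG hGr => ?_⟩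
      obtain ⟨c, hc, hcE⟩ := hB.2 ⟨G, hG⟩ hGr
      refine ⟨c, hc, ?_⟩
      have h1 := congrArg U.subtype hcE
      rw [map_sum] at h1
      exact h1
    have hBli : LinearIndependent K B := by
      subst hr
      have hbas := (Module.finBasis K U).linearIndependent
      exact Pool.Agent.Helper91.FD.li_of_fr hn (Submodule.subtype_injective U) rfl hdiv hbas hB
    have h1 := h.1 1 M _ E ⟨li_coe hBli, fun i => (B i).2⟩ hE (by
      rw [Matrix.det_one]
      exact one_ne_zero) hM0 _ fun j => (D j).2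
    rw [lt_one, ← hM, Matrix.det_one, one_zpow, one_mul] at h1
    rw [restr_apply, h1, dl_eq]
    have h4 : Gr P (b * P.ord M.det) (M.det ^ b) := by
      right
      rw [P.ord_zpow]
      push_cast
      exact le_rfl
    have h5 := h.2 P hP hdiv _ E hBf hf _ fun j => ⟨(D j).2, hD j⟩
    refine Gr.mono (le_of_eq ?_) (h4.mul h5)
    rw [hγ P hdiv E hE hf M hM]
    have h6 : Nat.card {j : Fin N // ¬ VLog U.subtype P (D j)} =
        Nat.card {j : Fin N // ¬ DerLog P (D j : Derivation ℂ K K)} := rfl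
    rw [h6]
    ring

theorem noTensors_of [Algebra.EssFiniteType ℂ K] (hn : Algebra.trdeg ℂ K = n)
    {C0 : Fin n → Derivation ℂ K K} (hC0 : LinearIndependent K C0) {X : Set (Place ℂ K)}
    {δ γ : Place ℂ K → ℝ} (hγ : ∀ P, Divisorial n P → ∀ E, LinearIndependent K E → IsFrame P E →
      ∀ M, C0 = lt M E → γ P = δ P - P.ord M.det)
    {U : Submodule K (Derivation ℂ K K)} {N : ℕ} {a b : ℤ} {κ : ℕ}
    (h : ∀ s : (Fin (finrank K U) → U) → MultilinearMap K (fun _ : Fin N => U) K,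
      IsMov n X δ γ U.subtype κ a b s → ∀ B, LinearIndependent K B → s B = 0) :
    Fol2.NoTensors n X δ U κ N a b := by
  rintro s ⟨hs, f, hf, hfs⟩ B C ⟨hB, hBU⟩ hC D hDU
  have h1 : IsMov (r := finrank K U) n X δ γ U.subtype κ a b (restr U C0 s) :=
    ⟨isTen_of hn hC0 hγ (r := finrank K U) hs rfl, f, hf, fun j => by
      have h0 : TenR (r := finrank K U) n X δ U a b (fun B C => f j • s B C) := hfs j
      exact isTen_of hn hC0 hγ h0 rfl⟩
  have h2 := h _ h1 (fun i => ⟨B i, hBU i⟩) (LinearIndependent.of_comp U.subtype hB)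
  have h3 : s B C0 D = 0 := congrArg (fun t => t fun j => ⟨D j, hDU j⟩) h2
  obtain ⟨A, hA⟩ := exists_lt (D := C) (li_span hn hC0)
  have hA0 : A.det ≠ 0 := by
    have h4 := hC
    rw [hA] at h4
    exact (lt_li.1 h4).2
  have h5 := hs.1 1 A B C0 ⟨hB, hBU⟩ hC0 (by
    rw [Matrix.det_one]
    exact one_ne_zero) hA0 D hDU
  have h6 : Fol2.trf 1 B = B := lt_one _
  have h7 : Fol2.trf A C0 = C := hA.symm
  rw [h6, h7, h3, mul_zero] at h5
  exact h5

/-- the foliation -/
theorem final_all [Algebra.EssFiniteType ℂ K] (hn : Algebra.trdeg ℂ K = n) (hn0 : 0 < n)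
    (X : Set (Place ℂ K)) (δ : Place ℂ K → ℝ) (hδ : ∀ P ∈ X, 0 ≤ δ P ∧ δ P ≤ 1) (κ : ℕ)
    (hκ : ¬ Tw.KodairaGe n X δ κ) :
    ∃ U F : Submodule K (Derivation ℂ K K), U ≠ ⊥ ∧ U ≤ F ∧ Fol2.Involutive F ∧
      (∀ W, U ≤ W → Fol2.Involutive W → F ≤ W) ∧ Fol2.AutInvariant X δ U ∧
      Fol2.AutInvariant X δ F ∧ ∀ ν : ℕ, ν = κ ∨ U ≠ ⊤ → ∀ (N : ℕ) (a b : ℤ),
        (0 < (N : ℤ) + Fol2.rk U * a → 0 < (N : ℤ) + Fol2.rk U * a + n * b →
          Fol2.NoTensors n X δ U ν N a b) ∧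
        (0 ≤ a → 0 < (N : ℤ) + a → 0 < (N : ℤ) + Fol2.rk F * a + n * b →
          Fol2.NoTensors n X δ F ν N a b) := by
  obtain ⟨C0, hC0, -⟩ := exists_basis (K := K) hn
  obtain ⟨γ, hγ⟩ := exists_gamma hn hC0 δ
  obtain ⟨hfin, hfr⟩ := finDim hn
  have htop : finrank K (⊤ : Submodule K (Derivation ℂ K K)) = n := by rw [finrank_top, hfr]
  obtain ⟨U, F, h1, h2, h3, h4, h5, h6, h7, h8, h9⟩ := fol_main hn hn0
    (fun P hP => (hδ P hP).1) (fun P hP => (hδ P hP).2) (linInv hn hC0 (X := X) hγ)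
    (ρ := (n : ℤ)) (κ := κ) (by
      rw [htop]
      exact fun h => hκ (kodairaGe_of hn hC0 (fun P hP => (hδ P hP).1) hγ h))
  refine ⟨U, F, h1, h2, h3, h4, h5, h6, fun ν hν N a b => ⟨fun hN hNb =>
    noTensors_of hn hC0 hγ fun s hs B hB => ?_, fun ha hN hNb =>
    noTensors_of hn hC0 hγ fun s hs B hB => ?_⟩⟩
  · rcases hν with rfl | hν
    · exact h7 N a b hN hNb s hs B hB
    · exact h8 hν N a b hN hNb s (isMov_zero hs) B hB
  · obtain ⟨a', rfl⟩ := Int.eq_ofNat_of_zero_le ha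
    exact h9 ν hν N a' b (by exact_mod_cast hN) hNb s hs B hB

theorem final_fol [Algebra.EssFiniteType ℂ K] (hn : Algebra.trdeg ℂ K = n) (hn0 : 0 < n)
    (X : Set (Place ℂ K)) (δ : Place ℂ K → ℝ) (hδ : ∀ P ∈ X, 0 ≤ δ P ∧ δ P ≤ 1) (κ : ℕ)
    (hκ : ¬ Tw.KodairaGe n X δ κ) :
    ∃ F : Submodule K (Derivation ℂ K K), F ≠ ⊥ ∧ Fol2.Involutive F ∧ Fol2.AutInvariant X δ F ∧
      ∀ (N a : ℕ) (b : ℤ), 0 < N + a → 0 < (N : ℤ) + Fol2.rk F * a + n * b →
        Fol2.NoTensors n X δ F κ N a b ∧ (F ≠ ⊤ → Fol2.NoTensors n X δ F 0 N a b) := by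
  obtain ⟨U, F, h1, h2, h3, h4, h5, h6, h7⟩ := final_all hn hn0 X δ hδ κ hκ
  refine ⟨F, fun h => h1 (le_bot_iff.1 (h ▸ h2)), h3, h6, fun N a b hN hNb =>
    ⟨(h7 κ (Or.inl rfl) N a b).2 (Int.natCast_nonneg _) (by exact_mod_cast hN) hNb, fun hF =>
      (h7 0 (Or.inr fun h => hF (top_le_iff.1 (h ▸ h2))) N a b).2 (Int.natCast_nonneg _)
        (by exact_mod_cast hN) hNb⟩⟩

theorem final_dist [Algebra.EssFiniteType ℂ K] (hn : Algebra.trdeg ℂ K = n) (hn0 : 0 < n)
    (X : Set (Place ℂ K)) (δ : Place ℂ K → ℝ) (hδ : ∀ P ∈ X, 0 ≤ δ P) (κ : ℕ)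
    (hκ : ¬ Tw.KodairaGe n X δ κ) :
    ∃ U : Submodule K (Derivation ℂ K K), U ≠ ⊥ ∧ Fol2.AutInvariant X δ U ∧
      ∀ (N : ℕ) (a b : ℤ), 0 < (N : ℤ) + Fol2.rk U * a → 0 < (N : ℤ) + Fol2.rk U * a + n * b →
        Fol2.NoTensors n X δ U κ N a b ∧ (U ≠ ⊤ → Fol2.NoTensors n X δ U 0 N a b) := by
  obtain ⟨C0, hC0, -⟩ := exists_basis (K := K) hn
  obtain ⟨γ, hγ⟩ := exists_gamma hn hC0 δ
  obtain ⟨hfin, hfr⟩ := finDim hn
  have htop : finrank K (⊤ : Submodule K (Derivation ℂ K K)) = n := by rw [finrank_top, hfr]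
  obtain ⟨U, -, hU0, hUI, hU, hU'⟩ := exists_noTen hn hδ (linInv hn hC0 (X := X) hγ)
    (ρ := (n : ℤ)) n ⊤ htop hn0 (fun _ _ _ _ _ _ => Submodule.mem_top) κ (by
      rw [htop]
      exact fun h => hκ (kodairaGe_of hn hC0 hδ hγ h))
  exact ⟨U, hU0, hUI, fun N a b hN hNb => ⟨noTensors_of hn hC0 hγ fun s hs B hB =>
    hU N a b hN hNb s hs B hB, fun h => noTensors_of hn hC0 hγ fun s hs B hB =>
      hU' h N a b hN hNb s hs B hB⟩⟩

end Pool.Agent.Helper91.FE
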