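import Pool.Agent.Helper91.FE.Inv
import Pool.Agent.Helper91.FE.Bracket
import Pool.Agent.Helper91.FE.Twist
import Pool.Agent.Helper91.FD.Fol

/-!
Distributions and foliations without twisted tensors of positive weight.
-/

set_option autoImplicit false
set_option linter.unusedSectionVars false

namespace Pool.Agent.Helper91.FE

open Module FF Pool.Agent.W602.GT Pool.Agent.W603.LV Pool.Agent.TH143.GT Pool.Agent.Y220.OG
  Pool.Agent.Helper12.BL Pool.Agent.Helper91.HM Pool.Agent.Helper91.HM.Tw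

open Pool.Agent.Helper91.FD (VReg VLog VInv dl IsFr dl_le dl_nonneg vlog_sum span_top exists_adp
  InvU exists_T finDim brk clo le_clo clo_le clo_inv brk_le invU_clo)

variable {K : Type} [Field K] [Algebra ℂ K] {n : ℕ}

/-- the divisor is invariant up to linear equivalence -/
def LinInv (n : ℕ) (X : Set (Place ℂ K)) (δ γ : Place ℂ K → ℝ) : Prop :=
  ∀ (φ : K ≃+* K) (τ : ℂ ≃+* ℂ) (h : ∀ c, φ (algebraMap ℂ K c) = algebraMap ℂ K (τ c)),
    Tw.Preserves X δ φ → ∃ g : K, g ≠ 0 ∧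
      ∀ P ∈ X, Divisorial n P → γ (mapPlace h P) = γ P + P.ord g

/-- there are no tensors of positive weight -/
def NoTen (n : ℕ) (X : Set (Place ℂ K)) (δ γ : Place ℂ K → ℝ) (ρ : ℤ)
    (U : Submodule K (Derivation ℂ K K)) (κ : ℕ) : Prop :=
  ∀ (N : ℕ) (a b : ℤ), 0 < (N : ℤ) + finrank K U * a → 0 < (N : ℤ) + finrank K U * a + ρ * b →
    ∀ s : (Fin (finrank K U) → U) → MultilinearMap K (fun _ : Fin N => U) K,
      IsMov n X δ γ U.subtype κ a b s → ∀ B, LinearIndependent K B → s B = 0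

theorem exists_noTen [Algebra.EssFiniteType ℂ K] (hn : Algebra.trdeg ℂ K = n)
    [FiniteDimensional K (Derivation ℂ K K)] {X : Set (Place ℂ K)}
    {δ γ : Place ℂ K → ℝ} (hδ : ∀ P ∈ X, 0 ≤ δ P) (hγ : LinInv n X δ γ) {ρ : ℤ} (r : ℕ) :
    ∀ U : Submodule K (Derivation ℂ K K), finrank K U = r → 0 < r → InvU X δ U → ∀ κ,
      ¬ KodGe (finrank K U) n X δ γ ρ U.subtype κ → ∃ F : Submodule K (Derivation ℂ K K), F ≤ U ∧
        F ≠ ⊥ ∧ InvU X δ F ∧ NoTen n X δ γ ρ F κ ∧ (F ≠ U → NoTen n X δ γ ρ F 0) := by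
  induction r using Nat.strong_induction_on with
  | _ r ih =>
    intro U hr hr0 hU κ hκ
    by_cases hno : NoTen n X δ γ ρ U κ
    · refine ⟨U, le_refl U, ?_, hU, hno, fun h => absurd rfl h⟩
      rintro rfl
      rw [finrank_bot] at hr
      omega
    · rw [NoTen] at hno
      push Not at hno
      obtain ⟨N, a, b, hNa, hNb, s, hs, B, hB, hne⟩ := hno
      obtain ⟨F', hF0, hF1, hFK, hFinv⟩ := exists_proper hn (Submodule.subtype_injective U) rfl
        (hr ▸ hr0) hδ hκ hNa hNb hs ⟨B, hB, hne⟩ hB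
      obtain ⟨U', hU'⟩ : ∃ U', U' = F'.map U.subtype := ⟨_, rfl⟩
      have e : F' ≃ₗ[K] U' := (Submodule.equivMapOfInjective U.subtype
        (Submodule.subtype_injective U) F').trans (LinearEquiv.ofEq _ _ hU'.symm)
      have hfr : finrank K U' = finrank K F' := (LinearEquiv.finrank_eq e).symm
      have hlt : finrank K U' < r := by
        rw [hfr, ← hr]
        exact Submodule.finrank_lt hF1
      have hpos : 0 < finrank K U' := by
        rw [hfr]
        have hnt : Nontrivial F' := Submodule.nontrivial_iff_ne_bot.2 hF0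
        exact Module.finrank_pos (R := K) (M := F')
      have hInv' : InvU X δ U' := by
        rintro φ hφ D hD D' hD'
        obtain ⟨⟨τ, hτ⟩, hX⟩ := id hφ
        obtain ⟨T, hT, hTc⟩ := exists_T hU hφ hτ
        obtain ⟨g, hg, hgγ⟩ := hγ φ τ hτ hφ
        rw [hU'] at hD ⊢
        obtain ⟨v, hv, rfl⟩ := hD
        have h1 : D' = cj hτ (U.subtype v) := by
          ext y
          rw [cj_apply, ← hD', RingEquiv.apply_symm_apply]
        rw [h1, ← hTc]
        refine ⟨T v, ?_, rfl⟩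
        exact hFinv φ T hT (vals_pull hτ hT hTc rfl hX hg hgγ hB) v hv
      have hK' : ¬ KodGe (finrank K U') n X δ γ ρ U'.subtype 0 := by
        intro hcon
        apply hFK
        rw [hfr] at hcon
        refine kodGe_transport ((Submodule.equivMapOfInjective U.subtype
          (Submodule.subtype_injective U) F').trans (LinearEquiv.ofEq _ _ hU'.symm)) ?_ hcon
        intro v
        rfl
      obtain ⟨F, h1, h2, h3, h4, -⟩ := ih _ hlt U' rfl hpos hInv' 0 hK'
      have h5 : U' ≤ U := by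
        rw [hU']
        exact Submodule.map_subtype_le U F'
      exact ⟨F, h1.trans h5, h2, h3, fun N a b hNa hNb s hs B hB =>
        h4 N a b hNa hNb s (isMov_zero hs) B hB, fun _ => h4⟩

theorem noPure_clo (hn : Algebra.trdeg ℂ K = n) {X : Set (Place ℂ K)} {δ γ : Place ℂ K → ℝ}
    (hδ : ∀ P ∈ X, 0 ≤ δ P) {ρ : ℤ} {κ : ℕ} (d : ℕ) :
    ∀ U : Submodule K (Derivation ℂ K K), n - finrank K U = d → NoPure n X δ γ ρ U.subtype κ →
      NoPure n X δ γ ρ (clo U).subtype κ := by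
  obtain ⟨hfin, hfr⟩ := finDim hn
  induction d using Nat.strong_induction_on with
  | _ d ih =>
    intro U hd hU
    by_cases hb : brk U = U
    · have h1 : clo U = U := le_antisymm (clo_le (le_refl U) fun x hx y hy => by
        rw [← hb]
        exact Submodule.mem_sup_right (Submodule.subset_span ⟨x, hx, y, hy, rfl⟩)) (le_clo U)
      rw [h1]
      exact hU
    · have h1 : U < brk U := lt_of_le_of_ne le_sup_left (Ne.symm hb)
      have h2 : finrank K U < finrank K (brk U) := Submodule.finrank_lt_finrank_of_lt h1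
      have h3 : finrank K (brk U) ≤ n := hfr ▸ Submodule.finrank_le _
      have h4 := ih (n - finrank K (brk U)) (by omega) (brk U) rfl (noPure_brk hδ hU)
      have h5 : clo (brk U) = clo U := le_antisymm
        (clo_le (brk_le (le_clo U) clo_inv) clo_inv)
        (clo_le (h1.le.trans (le_clo _)) clo_inv)
      rw [← h5]
      exact h4

theorem noPure_of_noTen [FiniteDimensional K (Derivation ℂ K K)] {X : Set (Place ℂ K)}
    {δ γ : Place ℂ K → ℝ} {ρ : ℤ} {κ : ℕ} {U : Submodule K (Derivation ℂ K K)}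
    (h : NoTen n X δ γ ρ U κ) : NoPure n X δ γ ρ U.subtype κ := by
  have key : ∀ {M : ℕ} {b : ℤ} {t : MultilinearMap K (fun _ : Fin M => U) K},
      IsPure n X δ γ U.subtype b t → IsTen n X δ γ U.subtype 0 b
        (fun _ : Fin (finrank K U) → U => t) := by
    intro M b t ht
    refine ⟨fun A B _ _ => by rw [zpow_zero, one_smul], fun P hP hdiv B _ D hD => ?_⟩
    have h1 := ht P hP hdiv D hD
    rw [Int.cast_zero, add_zero]
    exact h1
  intro M b hM hMb t ht
  refine h M 0 b (by simpa using hM) (by simpa using hMb) (fun _ => t) ⟨key ht.1, ?_⟩ _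
    (Module.finBasis K U).linearIndependent
  obtain ⟨f, hf, hfs⟩ := ht.2
  exact ⟨f, hf, fun j => key (hfs j)⟩

/-- The main theorem. -/
theorem fol_main [Algebra.EssFiniteType ℂ K] (hn : Algebra.trdeg ℂ K = n) (hn0 : 0 < n)
    {X : Set (Place ℂ K)} {δ γ : Place ℂ K → ℝ} (hδ : ∀ P ∈ X, 0 ≤ δ P) (hδ1 : ∀ P ∈ X, δ P ≤ 1)
    (hγ : LinInv n X δ γ) {ρ : ℤ} {κ : ℕ}
    (hκ : ¬ KodGe (finrank K (⊤ : Submodule K (Derivation ℂ K K))) n X δ γ ρ
      (⊤ : Submodule K (Derivation ℂ K K)).subtype κ) :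
    ∃ U F : Submodule K (Derivation ℂ K K), U ≠ ⊥ ∧ U ≤ F ∧
      (∀ D ∈ F, ∀ D' ∈ F, ⁅D, D'⁆ ∈ F) ∧
      (∀ W : Submodule K (Derivation ℂ K K), U ≤ W → (∀ D ∈ W, ∀ D' ∈ W, ⁅D, D'⁆ ∈ W) → F ≤ W) ∧
      InvU X δ U ∧ InvU X δ F ∧ NoTen n X δ γ ρ U κ ∧ (U ≠ ⊤ → NoTen n X δ γ ρ U 0) ∧
      ∀ κ' : ℕ, (κ' = κ ∨ U ≠ ⊤) → ∀ (N a : ℕ) (b : ℤ), 0 < N + a →
        0 < (N : ℤ) + finrank K F * a + ρ * b → ∀ s : (Fin (finrank K F) → F) →
        MultilinearMap K (fun _ : Fin N => F) K, IsMov n X δ γ F.subtype κ' (a : ℤ) b s →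
          ∀ B, LinearIndependent K B → s B = 0 := by
  obtain ⟨hfin, hfr⟩ := finDim hn
  have htop : finrank K (⊤ : Submodule K (Derivation ℂ K K)) = n := by rw [finrank_top, hfr]
  obtain ⟨U, -, hU0, hUI, hU, hU'⟩ := exists_noTen hn hδ hγ (ρ := ρ) n ⊤ htop hn0
    (fun _ _ _ _ _ _ => Submodule.mem_top) κ hκ
  refine ⟨U, clo U, hU0, le_clo U, clo_inv, fun W h1 h2 => clo_le h1 h2, hUI, invU_clo hUI, hU, hU',
    fun κ' hκ' N a b hNa hNb s hs B hB => ?_⟩
  have hF0 : 0 < finrank K (clo U) := by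
    have h1 : clo U ≠ ⊥ := fun h => hU0 (le_bot_iff.1 (h ▸ le_clo U))
    have hnt : Nontrivial (clo U) := Submodule.nontrivial_iff_ne_bot.2 h1
    exact Module.finrank_pos (R := K) (M := clo U)
  have hpure : NoPure n X δ γ ρ (clo U).subtype κ' := by
    rcases hκ' with rfl | h
    · exact noPure_clo hn hδ _ U rfl (noPure_of_noTen hU)
    · have h1 := noPure_clo hn hδ _ U rfl (noPure_of_noTen (hU' h))
      intro M b hM hMb t ht
      exact h1 M b hM hMb t
        ⟨ht.1, fun i => i.elim0, algebraicIndependent_empty_type, fun i => i.elim0⟩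
  exact noTwisted hn (Submodule.subtype_injective _) rfl hF0 hδ hδ1 hpure hNa hNb hs hB

end Pool.Agent.Helper91.FE
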