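import Pool.Agent.Helper91.FE.Main
import Pool.Agent.Helper91.FD.Inv

/-!
Automorphisms of the function field.
-/

set_option autoImplicit false
set_option linter.unusedSectionVars false

namespace Pool.Agent.Helper91.FE

open Module FF Pool.Agent.W602.GT Pool.Agent.W603.LV Pool.Agent.TH143.GT Pool.Agent.Y220.OG
  Pool.Agent.Helper12.BL Pool.Agent.Helper91.HM Pool.Agent.Helper91.HM.Tw

open Pool.Agent.Helper91.FD (VReg VLog VInv dl IsFr mem Adp vreg_sum vlog_sum vreg_smul vreg_sub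
  span_top exists_adp mem_mono mem_eq finrank_mem lt_restrictV FrOf frOf dl_le dl_nonneg vreg_map
  vlog_map vinv_map dl_map T_sum T_li isFr_map pullM pullM_apply)

section pull

variable {K : Type} [Field K] [Algebra ℂ K] {V : Type} [AddCommGroup V] [Module K V] {n r : ℕ}
  {ι : V →ₗ[K] Derivation ℂ K K} {φ : K ≃+* K} {τ : ℂ ≃+* ℂ}
  (h : ∀ c, φ (algebraMap ℂ K c) = algebraMap ℂ K (τ c)) {T : V ≃+ V}
  (hT : ∀ (c : K) (x : V), T (c • x) = φ c • T x) (hc : ∀ v, ι (T v) = cj h (ι v))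

include h hc in
theorem isTen_pull {X : Set (Place ℂ K)} {δ γ : Place ℂ K → ℝ}
    (hX : ∀ P ∈ X, ∀ P' : Place ℂ K, (∀ f, P'.ord (φ f) = P.ord f) → P' ∈ X ∧ δ P' = δ P)
    {g : K} (hg : g ≠ 0) (hγ : ∀ P ∈ X, Divisorial n P → γ (mapPlace h P) = γ P + P.ord g)
    {N : ℕ} {a b : ℤ}
    {s : (Fin r → V) → MultilinearMap K (fun _ : Fin N => V) K} (hs : IsTen n X δ γ ι a b s) :
    IsTen n X δ γ ι a b (fun B => g ^ b • pullM hT (s fun i => T (B i))) := by
  refine ⟨fun A B hB hA => ?_, fun P hP hdiv B hB D hD => ?_⟩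
  · ext x
    rw [smul_apply, smul_apply, smul_apply, pullM_apply]
    have h1 : (fun i => T (lt A B i)) = lt (A.map φ) (fun j => T (B j)) := by
      funext i
      exact T_sum hT _ _
    have h2 : (A.map φ).det = φ A.det := (RingHom.map_det (φ : K →+* K) A).symm
    rw [h1, hs.1 (A.map φ) _ (T_li hT hB) (by rw [h2]; exact (map_ne_zero φ).2 hA), h2,
      smul_apply, pullM_apply]
    simp only [smul_eq_mul, map_mul, map_zpow₀, RingEquiv.symm_apply_apply]
    ring
  · obtain ⟨h1, h2⟩ := hX P hP (mapPlace h P) fun f => by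
      rw [mapPlace_ord, RingEquiv.symm_apply_apply]
    have h3 := hs.2 (mapPlace h P) h1 (divisorial_map h hdiv) _ (isFr_map h hT hc hB)
      (fun j => T (D j)) fun j => (vreg_map h hc).2 (hD j)
    rw [smul_apply, pullM_apply, smul_eq_mul]
    rcases h3 with h3 | h3
    · left
      rw [h3, map_zero, mul_zero]
    · by_cases h0 : φ.symm (s (fun i => T (B i)) fun i => T (D i)) = 0
      · left
        rw [h0, mul_zero]
      right
      rw [mapPlace_ord, dl_map h hc h2, hγ P hP hdiv] at h3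
      simp only [vlog_map h hc] at h3
      rw [P.ord_mul (zpow_ne_zero _ hg) h0, P.ord_zpow]
      push_cast
      linarith

include h hc in
theorem isMov_pull {X : Set (Place ℂ K)} {δ γ : Place ℂ K → ℝ}
    (hX : ∀ P ∈ X, ∀ P' : Place ℂ K, (∀ f, P'.ord (φ f) = P.ord f) → P' ∈ X ∧ δ P' = δ P)
    {g : K} (hg : g ≠ 0) (hγ : ∀ P ∈ X, Divisorial n P → γ (mapPlace h P) = γ P + P.ord g)
    {κ N : ℕ} {a b : ℤ}
    {s : (Fin r → V) → MultilinearMap K (fun _ : Fin N => V) K} (hs : IsMov n X δ γ ι κ a b s) :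
    IsMov n X δ γ ι κ a b (fun B => g ^ b • pullM hT (s fun i => T (B i))) := by
  obtain ⟨h1, f, hf, hfs⟩ := hs
  refine ⟨isTen_pull h hT hc hX hg hγ h1, fun j => φ.symm (f j), algInd_conj h hf, fun j => ?_⟩
  have h2 : (fun B : Fin r → V => φ.symm (f j) • g ^ b • pullM hT (s fun i => T (B i))) =
      fun B => g ^ b • pullM hT ((fun B => f j • s B) fun i => T (B i)) := by
    funext B
    ext x
    rw [smul_apply, smul_apply, smul_apply, pullM_apply, pullM_apply, smul_apply, smul_eq_mul,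
      smul_eq_mul, smul_eq_mul, smul_eq_mul, map_mul]
    ring
  rw [h2]
  exact isTen_pull h hT hc hX hg hγ (hfs j)

include h hT hc in
theorem vals_pull [FiniteDimensional K V] (hr : finrank K V = r) {X : Set (Place ℂ K)}
    {δ γ : Place ℂ K → ℝ}
    (hX : ∀ P ∈ X, ∀ P' : Place ℂ K, (∀ f, P'.ord (φ f) = P.ord f) → P' ∈ X ∧ δ P' = δ P)
    {g : K} (hg : g ≠ 0) (hγ : ∀ P ∈ X, Divisorial n P → γ (mapPlace h P) = γ P + P.ord g)
    {ρ : ℤ} {κ : ℕ} {e0 : Fin r → V} (he0 : LinearIndependent K e0) :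
    ∀ d, ∀ t ∈ vals n X δ γ ρ ι κ e0 d, ∃ t' ∈ vals n X δ γ ρ ι κ e0 d,
          ∀ x : Fin d → V, t (fun k => T (x k)) ≠ 0 → t' x ≠ 0 := by
  rintro d t ⟨a', b', s', hpos, hpos', hs', rfl⟩
  have he0s := span_top hr he0
  refine ⟨g ^ b' • pullM hT (s' fun i => T (e0 i)), ⟨a', b', fun B => g ^ b' • pullM hT
    (s' fun i => T (B i)), hpos, hpos', isMov_pull h hT hc hX hg hγ hs', rfl⟩, fun x hne => ?_⟩
  obtain ⟨C, hC⟩ := exists_lt (D := fun i => T (e0 i)) he0s
  have h3 := T_li hT he0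
  rw [hC] at h3
  have h4 := (lt_li.1 h3).2
  rw [smul_apply, pullM_apply, smul_eq_mul]
  have h5 : s' (fun i => T (e0 i)) = C.det ^ a' • s' e0 := by
    rw [hC]
    exact hs'.1.1 C e0 he0 h4
  rw [h5, smul_apply, smul_eq_mul]
  exact mul_ne_zero (zpow_ne_zero _ hg)
    ((map_ne_zero φ.symm).2 (mul_ne_zero (zpow_ne_zero _ h4) hne))

end pull

section transport

variable {K : Type} [Field K] [Algebra ℂ K] {V V' : Type} [AddCommGroup V] [Module K V]
  [AddCommGroup V'] [Module K V'] {n r : ℕ}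
  {ι : V →ₗ[K] Derivation ℂ K K} {ι' : V' →ₗ[K] Derivation ℂ K K}

theorem kodGe_transport (e : V ≃ₗ[K] V') (he : ∀ v, ι' (e v) = ι v) {X : Set (Place ℂ K)}
    {δ γ : Place ℂ K → ℝ} {ρ : ℤ} {κ : ℕ} (h : KodGe r n X δ γ ρ ι' κ) :
    KodGe r n X δ γ ρ ι κ := by
  have hreg : ∀ P v, VReg ι' P (e v) ↔ VReg ι P v := fun P v => by rw [VReg, VReg, he]
  have hlog : ∀ P v, VLog ι' P (e v) ↔ VLog ι P v := fun P v => by rw [VLog, VLog, he]
  have hinv : ∀ P, VInv ι' P ↔ VInv ι P := fun P => by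
    constructor
    · intro hP v hv
      exact (hlog P v).1 (hP _ ((hreg P v).2 hv))
    · intro hP v hv
      obtain ⟨u, rfl⟩ := e.surjective v
      exact (hlog P u).2 (hP _ ((hreg P u).1 hv))
  have hdl : ∀ P, dl δ ι' P = dl δ ι P := fun P => by
    by_cases hP : VInv ι P
    · rw [dl, dl, if_pos hP, if_pos ((hinv P).2 hP)]
    · rw [dl, dl, if_neg hP, if_neg fun h' => hP ((hinv P).1 h')]
  obtain ⟨m, b, hm, hmb, ω, hω, D, hD, halg⟩ := h
  refine ⟨m, b, hm, hmb, fun j B => ω j (fun i => e (B i)), fun j => ⟨fun A D => ?_,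
    fun P hP hdiv D hD => ?_⟩, fun i => e.symm (D i), ?_, ?_⟩
  · have h1 : (fun i => e (lt A D i)) = lt A (fun i => e (D i)) := by
      funext i
      rw [lt, map_sum]
      exact Finset.sum_congr rfl fun l _ => map_smul _ _ _
    change ω j (fun i => e (lt A D i)) = A.det ^ m * ω j (fun i => e (D i))
    rw [h1, (hω j).1]
  · rw [← hdl]
    exact (hω j).2 P hP hdiv _ fun i => (hreg P _).2 (hD i)
  · simp only [LinearEquiv.apply_symm_apply]
    exact hD
  · simp only [LinearEquiv.apply_symm_apply]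
    exact halg

theorem kodGe_zero {X : Set (Place ℂ K)} {δ γ : Place ℂ K → ℝ} {ρ : ℤ} {κ : ℕ}
    (h : KodGe r n X δ γ ρ ι κ) : KodGe r n X δ γ ρ ι 0 := by
  obtain ⟨m, b, hm, hmb, ω, hω, D, hD, -⟩ := h
  exact ⟨m, b, hm, hmb, fun _ => ω 0, fun _ => hω 0, D, hD, algebraicIndependent_empty_type⟩

theorem isMov_zero {X : Set (Place ℂ K)} {δ γ : Place ℂ K → ℝ} {κ N : ℕ} {a b : ℤ}
    {s : (Fin r → V) → MultilinearMap K (fun _ : Fin N => V) K}
    (h : IsMov n X δ γ ι κ a b s) : IsMov n X δ γ ι 0 a b s :=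
  ⟨h.1, fun i => i.elim0, algebraicIndependent_empty_type, fun i => i.elim0⟩

end transport

end Pool.Agent.Helper91.FE
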