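import Pool.Agent.Helper91.FE.Base
import Pool.Agent.Helper91.FD.Kod

/-!
Sections of the canonical divisors of the members of a flag.
-/

set_option autoImplicit false
set_option linter.unusedSectionVars false

namespace Pool.Agent.Helper91.FE

open Module FF Pool.Agent.W602.GT Pool.Agent.W603.LV Pool.Agent.TH143.GT Pool.Agent.Y220.OG
  Pool.Agent.Helper12.BL Pool.Agent.Helper91.HM Pool.Agent.Helper91.HM.Tw

open Pool.Agent.Helper91.FD (VReg VLog VInv dl IsFr mem Adp vreg_sum vlog_sum vreg_smul vreg_sub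
  span_top exists_adp mem_mono mem_eq finrank_mem lt_restrictV FrOf frOf dl_le dl_nonneg)

variable {K : Type} [Field K] [Algebra ℂ K] {V : Type} [AddCommGroup V] [Module K V] {n r : ℕ}
  {ι : V →ₗ[K] Derivation ℂ K K}

/-- sections on subspaces as functions of families of vectors of `V` -/
theorem ext_form {X : Set (Place ℂ K)} {δ γ : Place ℂ K → ℝ} (hδ : ∀ P ∈ X, 0 ≤ δ P) {ρ : ℤ}
    {F : Submodule K V} (h : KodGe (finrank K F) n X δ γ ρ (ι ∘ₗ F.subtype) 0) :
    ∃ (m : ℕ) (b : ℤ), 0 < m ∧ 0 < (finrank K F : ℤ) * m + ρ * b ∧ ∃ θ : (Fin (finrank K F) → V) → K,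
      (∀ (A : Matrix (Fin (finrank K F)) (Fin (finrank K F)) K)
        (B : Fin (finrank K F) → V), (∀ i, B i ∈ F) → θ (lt A B) = A.det ^ m * θ B) ∧
      (∃ B, (∀ i, B i ∈ F) ∧ θ B ≠ 0) ∧
      ∀ P ∈ X, Divisorial n P → ∀ B, FrOf ι F P B → Gr P (-(m * δ P + b * γ P)) (θ B) ∧
        ((∀ i, VLog ι P (B i)) → Gr P (-(b * γ P)) (θ B)) := by
  classical
  obtain ⟨m, b, hm, hmb, ω, hω, D, hD, -⟩ := h
  obtain ⟨θ, hθ, hθ0⟩ : ∃ θ : (Fin (finrank K F) → V) → K,
      (∀ (B : Fin (finrank K F) → V) (hB : ∀ i, B i ∈ F), θ B = ω 0 (fun i => ⟨B i, hB i⟩)) ∧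
        ∀ B : Fin (finrank K F) → V, ¬ (∀ i, B i ∈ F) → θ B = 0 :=
    ⟨fun B => if hB : ∀ i, B i ∈ F then ω 0 (fun i => ⟨B i, hB i⟩) else 0,
      fun B hB => dif_pos hB, fun B hB => dif_neg hB⟩
  refine ⟨m, b, hm, hmb, θ, fun A B hB => ?_, ⟨fun i => D i, fun i => (D i).2, ?_⟩,
    fun P hP hdiv B hB => ⟨?_, fun hlog => ?_⟩⟩
  · have hAB : ∀ i, lt A B i ∈ F := fun i => Submodule.sum_mem _ fun j _ =>
      Submodule.smul_mem _ _ (hB j)
    rw [hθ _ hAB, hθ _ hB, ← (hω 0).1]
    congr 1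
    funext i
    apply Subtype.ext
    change ∑ j, A i j • B j = F.subtype (∑ j, A i j • (⟨B j, hB j⟩ : F))
    rw [map_sum]
    rfl
  · rw [hθ _ fun i => (D i).2]
    exact hD
  · rw [hθ _ fun i => (hB.1 i).1]
    refine Gr.mono ?_ ((hω 0).2 P hP hdiv (fun i => ⟨B i, (hB.1 i).1⟩) fun i => (hB.1 i).2)
    rw [neg_le_neg_iff]
    exact add_le_add (mul_le_mul_of_nonneg_left (dl_le (hδ P hP)) (Nat.cast_nonneg _)) le_rfl
  · rw [hθ _ fun i => (hB.1 i).1]
    have h1 := (hω 0).2 P hP hdiv (fun i => ⟨B i, (hB.1 i).1⟩) fun i => (hB.1 i).2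
    have h2 : dl δ (ι ∘ₗ F.subtype) P = 0 := if_pos fun v hv => by
      obtain ⟨c, hc, hcv⟩ := hB.2 v.1 v.2 hv
      change VLog ι P v.1
      rw [hcv]
      exact vlog_sum hc hlog
    rw [h2, mul_zero, zero_add] at h1
    exact h1

/-- If all proper members of the flag have nonnegative Kodaira dimension then the Iitaka dimension of
the section is at most the Kodaira dimension. -/
theorem kod_of_mems [Algebra.EssFiniteType ℂ K] (hn : Algebra.trdeg ℂ K = n)
    (hι : Function.Injective ι) [FiniteDimensional K V] (hr : finrank K V = r) (hr0 : 0 < r)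
    {X : Set (Place ℂ K)} {δ γ : Place ℂ K → ℝ} (hδ : ∀ P ∈ X, 0 ≤ δ P) {ρ : ℤ}
    {b : Fin r → V} {e : Fin r → ℤ} (hb : LinearIndependent K b) (he : 0 < ∑ j, e j) {β : ℤ}
    (heβ : 0 < ∑ j, e j + ρ * β)
    {κ : ℕ} {ω : (Fin r → V) → K} (hω : IsFlag n X δ γ ι b e β ω)
    (hω0 : ∃ D, Adp (K := K) b e D ∧ ω D ≠ 0) {f : Fin κ → K} (hf : AlgebraicIndependent ℂ f)
    (hfs : ∀ j, IsFlag n X δ γ ι b e β (fun D => f j * ω D))
    (hmem : ∀ j, (mem b e (e j) : Submodule K V) ≠ ⊤ →
      KodGe (finrank K (mem b e (e j) : Submodule K V)) n X δ γ ρ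
        (ι ∘ₗ (mem b e (e j) : Submodule K V).subtype) 0) :
    KodGe r n X δ γ ρ ι κ := by
  classical
  have hne : (Finset.univ : Finset (Fin r)).Nonempty := ⟨⟨0, hr0⟩, Finset.mem_univ _⟩
  obtain ⟨j0, -, hj0⟩ := Finset.exists_min_image Finset.univ e hne
  obtain ⟨j1, -, hj1⟩ := Finset.exists_max_image Finset.univ e hne
  have hmax0 : 0 < e j1 := by
    by_contra hcon
    have h1 : ∑ j, e j ≤ 0 := Finset.sum_nonpos fun j _ =>
      (hj1 j (Finset.mem_univ _)).trans (not_lt.1 hcon)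
    omega
  have hbs := span_top hr hb
  obtain ⟨bas, hbas⟩ : ∃ bas : Basis (Fin r) K V, ∀ j, bas j = b j :=
    ⟨Basis.mk hb hbs.ge, fun j => by rw [Basis.mk_apply]⟩
  have hcoord : ∀ t, ∀ D ∈ (mem b e t : Submodule K V), ∀ l, bas.repr D l ≠ 0 → e l ≤ t := by
    intro t D hD l hl
    by_contra hlt
    apply hl
    have h1 : (mem b e t : Submodule K V) ≤ LinearMap.ker (bas.coord l) := by
      rw [mem, Submodule.span_le]
      rintro _ ⟨j, hj, rfl⟩
      rw [SetLike.mem_coe, LinearMap.mem_ker, Basis.coord_apply, ← hbas, Basis.repr_self,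
        Finsupp.single_apply, if_neg]
      rintro rfl
      exact hlt hj
    have h2 := h1 hD
    rwa [LinearMap.mem_ker, Basis.coord_apply] at h2
  -- the members
  have hproper : ∀ t, e j0 ≤ t → t < e j1 → KodGe (finrank K (mem b e t : Submodule K V)) n X δ γ ρ
      (ι ∘ₗ (mem b e t : Submodule K V).subtype) 0 := by
    intro t h0 h1
    obtain ⟨j, hj, hj'⟩ := Finset.exists_max_image (Finset.univ.filter fun l => e l ≤ t) e
      ⟨j0, Finset.mem_filter.2 ⟨Finset.mem_univ _, h0⟩⟩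
    have h2 : (mem b e t : Submodule K V) = mem b e (e j) := by
      rw [mem, mem]
      congr 2
      ext l
      constructor
      · intro hl
        exact hj' l (Finset.mem_filter.2 ⟨Finset.mem_univ _, hl⟩)
      · intro hl
        exact le_trans hl (Finset.mem_filter.1 hj).2
    rw [h2]
    apply hmem
    rw [← h2]
    intro htop
    have h3 : b j1 ∈ (mem b e t : Submodule K V) := htop ▸ Submodule.mem_top
    have h4 := hcoord t _ h3 j1 (by
      rw [← hbas, Basis.repr_self, Finsupp.single_eq_same]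
      exact one_ne_zero)
    omega
  have hall : ∀ t, ∃ (m : ℕ) (d : ℤ) (θ : (Fin (finrank K (mem b e t : Submodule K V)) → V) → K),
      0 < m ∧ (e j0 ≤ t → t < e j1 →
        0 < (finrank K (mem b e t : Submodule K V) : ℤ) * m + ρ * d ∧
        (∀ (A : Matrix (Fin (finrank K (mem b e t : Submodule K V))) (Fin (finrank K (mem b e t : Submodule K V))) K)
          (B : Fin (finrank K (mem b e t : Submodule K V)) → V), (∀ i, B i ∈ (mem b e t : Submodule K V)) →
            θ (lt A B) = A.det ^ m * θ B) ∧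
        (∃ B, (∀ i, B i ∈ (mem b e t : Submodule K V)) ∧ θ B ≠ 0) ∧
        ∀ P ∈ X, Divisorial n P → ∀ B, FrOf ι (mem b e t) P B →
          Gr P (-(m * δ P + d * γ P)) (θ B) ∧
            ((∀ i, VLog ι P (B i)) → Gr P (-(d * γ P)) (θ B))) := by
    intro t
    by_cases h : e j0 ≤ t ∧ t < e j1
    · obtain ⟨m, d, hm, hmd, θ, hθ⟩ := ext_form hδ (hproper t h.1 h.2)
      exact ⟨m, d, θ, hm, fun _ _ => ⟨hmd, hθ⟩⟩
    · exact ⟨1, 0, fun _ => 0, one_pos, fun h0 h1 => absurd ⟨h0, h1⟩ h⟩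
  choose m d θ hm hθ' using hall
  have hθ := fun t h0 h1 => (hθ' t h0 h1).2
  have hσ : ∀ t, Nonempty (Fin (finrank K (mem b e t : Submodule K V)) ≃ {l // e l ≤ t}) := fun t =>
    ⟨(finCongr (finrank_mem hb e t)).trans (Fintype.equivFin _).symm⟩
  let σ : ∀ t, Fin (finrank K (mem b e t : Submodule K V)) ≃ {l // e l ≤ t} := fun t => (hσ t).some
  obtain ⟨I, hI⟩ : ∃ I, I = Finset.Ico (e j0) (e j1) := ⟨_, rfl⟩
  have hImem : ∀ t, t ∈ I ↔ e j0 ≤ t ∧ t < e j1 := fun t => by rw [hI, Finset.mem_Ico]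
  obtain ⟨M, hM⟩ : ∃ M, M = ∏ t ∈ I, m t := ⟨_, rfl⟩
  obtain ⟨rr, hrr⟩ : ∃ rr : ℤ → ℕ, ∀ t, rr t = ∏ u ∈ I.erase t, m u := ⟨_, fun _ => rfl⟩
  have hmr : ∀ t ∈ I, m t * rr t = M := fun t ht => by
    rw [hrr, hM, Finset.mul_prod_erase _ _ ht]
  have hM0 : 0 < M := hM ▸ Finset.prod_pos fun t _ => hm t
  obtain ⟨W, hW⟩ : ∃ W : ℕ, (W : ℤ) = M * e j1 := ⟨(M * e j1).toNat, Int.toNat_of_nonneg
    (mul_nonneg (Int.natCast_nonneg _) hmax0.le)⟩
  have hW0 : 0 < W := by
    have h1 : (0 : ℤ) < M := by exact_mod_cast hM0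
    have h2 := mul_pos h1 hmax0
    rw [← hW] at h2
    exact_mod_cast h2
  obtain ⟨T, hT⟩ : ∃ T : ℤ, T = M * β + ∑ t ∈ I, rr t * d t := ⟨_, rfl⟩
  have hWT : 0 < (r : ℤ) * W + ρ * T := by
    have h1 : ∑ t ∈ I, (finrank K (mem b e t : Submodule K V) : ℤ) = r * e j1 - ∑ j, e j := by
      have h2 : ∀ t, (finrank K (mem b e t : Submodule K V) : ℤ) = ∑ j, if e j ≤ t then 1 else 0 := by
        intro t
        rw [finrank_mem hb, Fintype.card_subtype, Finset.card_filter]
        push_cast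
        rfl
      rw [Finset.sum_congr rfl fun t _ => h2 t, Finset.sum_comm]
      have h3 : ∀ j, ∑ t ∈ I, (if e j ≤ t then (1 : ℤ) else 0) = e j1 - e j := by
        intro j
        rw [← Finset.sum_filter]
        have h4 : I.filter (fun t => e j ≤ t) = Finset.Ico (e j) (e j1) := by
          ext t
          rw [Finset.mem_filter, hImem, Finset.mem_Ico]
          constructor
          · rintro ⟨⟨-, h5⟩, h6⟩
            exact ⟨h6, h5⟩
          · rintro ⟨h5, h6⟩
            exact ⟨⟨(hj0 j (Finset.mem_univ _)).trans h5, h6⟩, h5⟩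
        rw [h4, Finset.sum_const, Int.card_Ico, nsmul_eq_mul, mul_one,
          Int.toNat_of_nonneg (sub_nonneg.2 (hj1 j (Finset.mem_univ _)))]
      rw [Finset.sum_congr rfl fun j _ => h3 j, Finset.sum_sub_distrib, Finset.sum_const,
        Finset.card_univ, Fintype.card_fin, nsmul_eq_mul]
    have h2 : ∀ t ∈ I, 0 ≤ (M : ℤ) * finrank K (mem b e t : Submodule K V) + ρ * (rr t * d t) := by
      intro t ht
      obtain ⟨ht0, ht1⟩ := (hImem t).1 ht
      have h3 := (hθ' t ht0 ht1).1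
      have h4 : (M : ℤ) = m t * rr t := by exact_mod_cast (hmr t ht).symm
      have h5 : (M : ℤ) * finrank K (mem b e t : Submodule K V) + ρ * (rr t * d t) =
          rr t * ((finrank K (mem b e t : Submodule K V) : ℤ) * m t + ρ * d t) := by
        rw [h4]
        ring
      rw [h5]
      exact mul_nonneg (Int.natCast_nonneg _) h3.le
    have h3 := Finset.sum_nonneg h2
    rw [Finset.sum_add_distrib, ← Finset.mul_sum, h1, ← Finset.mul_sum] at h3
    have h4 : (0 : ℤ) < M * (∑ j, e j + ρ * β) := mul_pos (by exact_mod_cast hM0) heβ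
    rw [hW, hT]
    linarith
  let G : K → (Fin r → V) → K := fun c D =>
    c * ω D ^ M * ∏ t ∈ I, θ t (fun i => D (σ t i).1) ^ rr t
  have hGc : ∀ c D, G c D = c * G 1 D := fun c D => by
    change c * ω D ^ M * _ = c * (1 * ω D ^ M * _)
    ring
  -- the transformation law
  have hlaw : ∀ (C : Matrix (Fin r) (Fin r) K) (D : Fin r → V), Adp (K := K) b e D →
      C.det ≠ 0 → (∀ i j, C i j ≠ 0 → e j ≤ e i) → ∀ c, G c (lt C D) = C.det ^ W * G c D := by
    intro C D hD hC hCe c
    have h1 : ω (lt C D) = (∏ t ∈ Finset.univ.image e, (C.toSquareBlock e t).det ^ t) * ω D :=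
      hω.1 C D hD hC hCe
    have hdet := det_blocks hCe
    have hd : ∀ u ∈ Finset.univ.image e, (C.toSquareBlock e u).det ≠ 0 := by
      rw [hdet] at hC
      exact fun u hu => Finset.prod_ne_zero_iff.1 hC u hu
    have h2 : ∀ t ∈ I, θ t (fun i => lt C D (σ t i).1) ^ rr t =
        (∏ u ∈ Finset.univ.image e, if u ≤ t then (C.toSquareBlock e u).det ^ (M : ℤ) else 1) *
          θ t (fun i => D (σ t i).1) ^ rr t := by
      intro t ht
      obtain ⟨ht0, ht1⟩ := (hImem t).1 ht
      rw [lt_restrictV hCe D (σ t), (hθ t ht0 ht1).1 _ _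
        (fun i => mem_mono (σ t i).2 (hD.2 _)), det_blocks_le hCe t (σ t), mul_pow, ← pow_mul,
        hmr t ht, ← Finset.prod_pow, Finset.prod_filter]
      simp only [zpow_natCast]
    change c * ω (lt C D) ^ M * ∏ t ∈ I, θ t (fun i => lt C D (σ t i).1) ^ rr t = _
    rw [Finset.prod_congr rfl h2, Finset.prod_mul_distrib, Finset.prod_comm, h1, mul_pow,
      ← Finset.prod_pow]
    have h3 : ∀ u ∈ Finset.univ.image e, ((C.toSquareBlock e u).det ^ u) ^ M *
        ∏ t ∈ I, (if u ≤ t then (C.toSquareBlock e u).det ^ (M : ℤ) else 1) =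
          (C.toSquareBlock e u).det ^ W := by
      intro u hu
      obtain ⟨l, -, hl⟩ := Finset.mem_image.1 hu
      have hul : e j0 ≤ u := hl ▸ hj0 l (Finset.mem_univ _)
      have hul' : u ≤ e j1 := hl ▸ hj1 l (Finset.mem_univ _)
      rw [← Finset.prod_filter, Finset.prod_const]
      have h4 : I.filter (fun t => u ≤ t) = Finset.Ico u (e j1) := by
        ext t
        rw [Finset.mem_filter, hImem, Finset.mem_Ico]
        constructor
        · rintro ⟨⟨-, h5⟩, h6⟩
          exact ⟨h6, h5⟩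
        · rintro ⟨h5, h6⟩
          exact ⟨⟨hul.trans h5, h6⟩, h5⟩
      rw [h4, Int.card_Ico, ← zpow_natCast (C.toSquareBlock e u).det W, ← zpow_natCast _ M,
        ← zpow_mul, ← zpow_natCast _ (e j1 - u).toNat, ← zpow_mul, ← zpow_add₀ (hd u hu),
        Int.toNat_of_nonneg (sub_nonneg.2 hul'), hW]
      congr 1
      ring
    have h5 : C.det ^ W = (∏ u ∈ Finset.univ.image e, ((C.toSquareBlock e u).det ^ u) ^ M) *
        ∏ u ∈ Finset.univ.image e, ∏ t ∈ I,
          (if u ≤ t then (C.toSquareBlock e u).det ^ (M : ℤ) else 1) := by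
      rw [← Finset.prod_mul_distrib, Finset.prod_congr rfl h3, hdet, Finset.prod_pow]
    rw [h5]
    change _ = _ * (c * ω D ^ M * ∏ t ∈ I, θ t (fun i => D (σ t i).1) ^ rr t)
    ring
  have hbA : Adp (K := K) b e b := ⟨hb, fun j => Submodule.subset_span ⟨j, le_refl (e j), rfl⟩⟩
  -- the coordinates
  obtain ⟨R, hRdef⟩ : ∃ R : (Fin r → V) → Matrix (Fin r) (Fin r) K,
    ∀ D, R D = Matrix.of fun i j => bas.repr (D i) j := ⟨_, fun _ => rfl⟩
  have hR : ∀ D, lt (R D) b = D := by
    intro D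
    funext i
    rw [lt, hRdef]
    have h1 := bas.sum_repr (D i)
    simp only [hbas] at h1
    exact h1
  have hRlt : ∀ (C : Matrix (Fin r) (Fin r) K) (D : Fin r → V),
      R (lt C D) = C * R D := by
    intro C D
    ext i j
    rw [hRdef, hRdef, Matrix.of_apply, Matrix.mul_apply, lt, map_sum, Finsupp.coe_finsetSum,
      Finset.sum_apply]
    refine Finset.sum_congr rfl fun l _ => ?_
    rw [map_smul, Finsupp.smul_apply, smul_eq_mul, Matrix.of_apply]
  have hRli : ∀ D, LinearIndependent K D → (R D).det ≠ 0 := fun D hD => by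
    rw [← hR D] at hD
    exact (lt_li.1 hD).2
  have hRA : ∀ D, Adp (K := K) b e D → ∀ i j, R D i j ≠ 0 → e j ≤ e i := by
    intro D hD i j hij
    rw [hRdef, Matrix.of_apply] at hij
    exact hcoord _ _ (hD.2 i) j hij
  have hGb : ∀ D, Adp (K := K) b e D → ∀ c, G c D = (R D).det ^ W * G c b := by
    intro D hD c
    have h1 := hlaw (R D) b hbA (hRli D hD.1) (hRA D hD) c
    rwa [hR] at h1
  -- nonvanishing
  have hωb : ω b ≠ 0 := by
    obtain ⟨D, hD, hne⟩ := hω0
    have h1 : ω (lt (R D) b) = _ := hω.1 (R D) b hbA (hRli D hD.1) (hRA D hD)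
    rw [hR] at h1
    rw [h1] at hne
    exact right_ne_zero_of_mul hne
  have hθb : ∀ t ∈ I, θ t (fun i => b (σ t i).1) ≠ 0 := by
    intro t ht
    obtain ⟨ht0, ht1⟩ := (hImem t).1 ht
    obtain ⟨B, hB, hne⟩ := (hθ t ht0 ht1).2.1
    have h1 : B = lt (Matrix.of fun i j => bas.repr (B i) (σ t j).1)
        (fun j => b (σ t j).1) := by
      funext i
      have h2 := bas.sum_repr (B i)
      simp only [hbas] at h2
      have h3 := sum_restrict (σ t) (fun l => bas.repr (B i) l • b l) fun l hl =>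
        hcoord t _ (hB i) l fun h => hl (by rw [h, zero_smul])
      rw [h3] at h2
      exact h2.symm
    rw [h1, (hθ t ht0 ht1).1 _ _ fun i => mem_mono (σ t i).2 (hbA.2 _)] at hne
    exact right_ne_zero_of_mul hne
  have hG0 : G 1 b ≠ 0 := by
    change 1 * ω b ^ M * ∏ t ∈ I, θ t (fun i => b (σ t i).1) ^ rr t ≠ 0
    rw [one_mul]
    exact mul_ne_zero (pow_ne_zero _ hωb)
      (Finset.prod_ne_zero_iff.2 fun t ht => pow_ne_zero _ (hθb t ht))
  -- the sections
  let Ω : K → (Fin r → V) → K := fun c D => (R D).det ^ W * G c b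
  have hpl : ∀ c, ∀ (A : Matrix (Fin r) (Fin r) K) (D : Fin r → V), Ω c (lt A D) = A.det ^ W * Ω c D := by
    intro c C D
    change (R (lt C D)).det ^ W * G c b = C.det ^ W * ((R D).det ^ W * G c b)
    rw [hRlt, Matrix.det_mul, mul_pow]
    ring
  have hΩ : ∀ c, IsFlag n X δ γ ι b e β (fun D => c * ω D) → IsSec n X δ γ ι W T (Ω c) := by
    intro c hc
    refine ⟨hpl c, fun P hP hdiv D hD => ?_⟩
    obtain ⟨E, hEA, hframe, hexp⟩ := exists_adp hn hι hr hb e hdiv
    have hTr : (T : ℝ) = M * β + ∑ t ∈ I, ((rr t : ℝ) * (d t : ℝ)) := by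
      rw [hT]
      push_cast
      rfl
    have hbound : Gr P (-(W * dl δ ι P + T * γ P)) (G c E) := by
      by_cases hex : ∃ i, ¬ VLog ι P (E i)
      · obtain ⟨i, hi⟩ := hex
        have hdl : dl δ ι P = δ P := if_neg fun h => hi (h _ (hframe.1 i))
        obtain ⟨i0, hi0, hmin⟩ := Finset.exists_min_image
          (Finset.univ.filter fun i => ¬ VLog ι P (E i)) e ⟨i, Finset.mem_filter.2
            ⟨Finset.mem_univ _, hi⟩⟩
        have hi0' := (Finset.mem_filter.1 hi0).2
        have hlog : ∀ j, e j < e i0 → VLog ι P (E j) := by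
          intro j hj
          by_contra hcon
          exact absurd (hmin j (Finset.mem_filter.2 ⟨Finset.mem_univ _, hcon⟩)) (not_le.2 hj)
        have hω1 : Gr P (-(e i0 * δ P + β * γ P)) (ω E) :=
          (hω.2 P hP hdiv E hEA hframe).1 i0 hi0' hlog
        have hω2 : Gr P (-(e i0 * δ P + β * γ P)) (c * ω E) :=
          (hc.2 P hP hdiv E hEA hframe).1 i0 hi0' hlog
        have h3 : Gr P (M * -(e i0 * δ P + β * γ P)) (c * ω E ^ M) := by
          obtain ⟨M', hM'⟩ : ∃ M', M = M' + 1 := ⟨M - 1, by omega⟩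
          have h4 := hω2.mul (Gr.pow hω1 M')
          rw [hM']
          have h5 : c * ω E ^ (M' + 1) = c * ω E * ω E ^ M' := by ring
          rw [h5]
          refine Gr.mono (le_of_eq ?_) h4
          push_cast
          ring
        have h4 : ∀ t ∈ I, Gr P ((if e i0 ≤ t then -(M * δ P) else 0) + -(rr t * d t * γ P))
            (θ t (fun i => E (σ t i).1) ^ rr t) := by
          intro t ht
          obtain ⟨ht0, ht1⟩ := (hImem t).1 ht
          have h5 := (hθ t ht0 ht1).2.2 P hP hdiv _ (frOf hEA hframe.1 (hexp t) (σ t))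
          by_cases h6 : e i0 ≤ t
          · rw [if_pos h6]
            have h7 : Gr P (-(m t * δ P + d t * γ P)) (θ t (fun i => E (σ t i).1)) := h5.1
            refine Gr.mono (le_of_eq ?_) (Gr.pow h7 (rr t))
            rw [← hmr t ht]
            push_cast
            ring
          · rw [if_neg h6]
            have h8 := h5.2 fun i => hlog _ (lt_of_le_of_lt (σ t i).2 (not_le.1 h6))
            refine Gr.mono (le_of_eq ?_) (Gr.pow h8 (rr t))
            ring
        refine Gr.mono (le_of_eq ?_) (h3.mul (Gr.prod (P := P) I _ _ h4))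
        rw [Finset.sum_add_distrib, ← Finset.sum_filter, Finset.sum_const, Finset.sum_neg_distrib,
          ← Finset.sum_mul, hTr, hdl]
        have h6 : I.filter (fun t => e i0 ≤ t) = Finset.Ico (e i0) (e j1) := by
          ext t
          rw [Finset.mem_filter, hImem, Finset.mem_Ico]
          constructor
          · rintro ⟨⟨-, h5⟩, h6⟩
            exact ⟨h6, h5⟩
          · rintro ⟨h5, h6⟩
            exact ⟨⟨(hj0 i0 (Finset.mem_univ _)).trans h5, h6⟩, h5⟩
        have h7 : (((e j1 - e i0).toNat : ℕ) : ℝ) = e j1 - e i0 := by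
          have h8 : (((e j1 - e i0).toNat : ℕ) : ℤ) = e j1 - e i0 :=
            Int.toNat_of_nonneg (sub_nonneg.2 (hj1 i0 (Finset.mem_univ _)))
          exact_mod_cast h8
        have h8 : (W : ℝ) = M * e j1 := by exact_mod_cast hW
        rw [h6, Int.card_Ico, nsmul_eq_mul, h7, h8]
        ring
      · push Not at hex
        have hdl : dl δ ι P = 0 := if_pos fun v hv => by
          obtain ⟨c, hc, rfl⟩ := hframe.2 v hv
          exact vlog_sum hc hex
        have hω1 : Gr P (-(β * γ P)) (ω E) := (hω.2 P hP hdiv E hEA hframe).2 hex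
        have hω2 : Gr P (-(β * γ P)) (c * ω E) := (hc.2 P hP hdiv E hEA hframe).2 hex
        have h3 : Gr P (M * -(β * γ P)) (c * ω E ^ M) := by
          obtain ⟨M', hM'⟩ : ∃ M', M = M' + 1 := ⟨M - 1, by omega⟩
          have h4 := hω2.mul (Gr.pow hω1 M')
          rw [hM']
          have h5 : c * ω E ^ (M' + 1) = c * ω E * ω E ^ M' := by ring
          rw [h5]
          refine Gr.mono (le_of_eq ?_) h4
          push_cast
          ring
        have h4 : ∀ t ∈ I, Gr P (-(rr t * d t * γ P)) (θ t (fun i => E (σ t i).1) ^ rr t) := by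
          intro t ht
          obtain ⟨ht0, ht1⟩ := (hImem t).1 ht
          have h5 := (hθ t ht0 ht1).2.2 P hP hdiv _ (frOf hEA hframe.1 (hexp t) (σ t))
          refine Gr.mono (le_of_eq ?_) (Gr.pow (h5.2 fun i => hex _) (rr t))
          ring
        refine Gr.mono (le_of_eq ?_) (h3.mul (Gr.prod (P := P) I _ _ h4))
        rw [hdl, hTr, Finset.sum_neg_distrib, ← Finset.sum_mul]
        ring
    -- the comparison
    choose c' hc' hcD using fun i => hframe.2 (D i) (hD i)
    obtain ⟨C, hC⟩ : ∃ C : Matrix (Fin r) (Fin r) K, C = Matrix.of c' := ⟨_, rfl⟩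
    have hDC : D = lt C E := by
      funext i
      rw [hcD i, hC]
      rfl
    have hdet : Gr P 0 C.det := det_reg fun i j => by
      rw [hC]
      exact hc' i j
    have h6 : Ω c D = C.det ^ W * G c E := by
      rw [hDC, hGb E hEA c]
      exact hpl c C E
    rw [h6]
    refine Gr.mono (le_of_eq ?_) ((Gr.pow hdet W).mul hbound)
    ring
  have hΩb : ∀ c, Ω c b = c * G 1 b := by
    intro c
    change (R b).det ^ W * G c b = c * G 1 b
    rw [← hGb b hbA, hGc]
  obtain ⟨F, hF0, hF⟩ : ∃ F : Fin (κ + 1) → K, F 0 = 1 ∧ ∀ j, F (Fin.succ j) = f j :=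
    ⟨Fin.cons 1 f, rfl, fun _ => rfl⟩
  refine ⟨W, T, hW0, hWT, fun j => Ω (F j), fun j => hΩ _ ?_, b, ?_, ?_⟩
  · refine Fin.cases ?_ (fun j => ?_) j
    · rw [hF0]
      simp only [one_mul]
      exact hω
    · rw [hF]
      exact hfs j
  · change Ω (F 0) b ≠ 0
    rw [hΩb, hF0, one_mul]
    exact hG0
  · change AlgebraicIndependent ℂ (fun j : Fin κ => Ω (F j.succ) b / Ω (F 0) b)
    have h1 : (fun j : Fin κ => Ω (F j.succ) b / Ω (F 0) b) = f := by
      funext j
      rw [hΩb, hΩb, hF0, one_mul, hF]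
      exact mul_div_cancel_right₀ _ hG0
    rw [h1]
    exact hf

end Pool.Agent.Helper91.FE
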